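import Pool.Agent.Q220.MDSArray.LunelliSce

/-!
# The repair bound is attained for `(q, r, l) = (4, 3, 2)`

There is an `(18, 15, 2)` MDS array code over the field with four elements for which all four
quantities `β_avg`, `β_max`, `γ_avg`, `γ_max` are equal to the lower bound
`B(18, 3, 2, 4) = 24`, although `r - 1 = 2` does not divide `q - 1 = 3`. The code comes from the
Lunelli-Sce hyperoval of the plane over the field with sixteen elements; three repair matrices
serve all the nodes.
-/

namespace Pool.Agent.Results.MP_e76747_lc.LunelliSceRepair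

open Q220.MDSArray

/-- **Main theorem.** -/
theorem result :
    ¬ (3 - 1 ∣ 4 - 1) ∧
    ∃ (K : Type) (_ : Field K) (_ : Fintype K) (H : Blocks K 18 3 2),
      Fintype.card K = 4 ∧ IsMDS H ∧
      betaAvg H = bound 18 3 2 4 ∧ (betaMax H : ℚ) = bound 18 3 2 4 ∧
      gammaAvg H = bound 18 3 2 4 ∧ (gammaMax H : ℚ) = bound 18 3 2 4 ∧
      bound 18 3 2 4 = 24 := by
  have hb : bound 18 3 2 4 = 24 := by unfold bound; norm_num
  refine ⟨by norm_num, F4, inferInstance, inferInstance, blk, card_F4, isMDS_blk, ?_, ?_, ?_, ?_,
    hb⟩
  · rw [hb]; unfold betaAvg; simp only [beta_blk]; norm_num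
  · rw [hb]; unfold betaMax
    have : (Finset.univ : Finset (Fin 18)).sup (beta blk) = 24 := by
      have h : beta blk = fun _ => 24 := funext beta_blk
      rw [h]
      exact Finset.sup_const Finset.univ_nonempty 24
    rw [this]; norm_num
  · rw [hb]; unfold gammaAvg; simp only [gamma_blk]; norm_num
  · rw [hb]; unfold gammaMax
    have : (Finset.univ : Finset (Fin 18)).sup (gamma blk) = 24 := by
      have h : gamma blk = fun _ => 24 := funext gamma_blk
      rw [h]
      exact Finset.sup_const Finset.univ_nonempty 24
    rw [this]; norm_num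

end Pool.Agent.Results.MP_e76747_lc.LunelliSceRepair
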